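import Pool.Agent.SHA.Stmts

/-! # SHA, row CON -/

set_option autoImplicit false

namespace Pool.Agent.SHA.H70

open Pool.Agent.Helper18_Helly

universe u

/-- the sets `J` on the points `w j` -/
def jw (I : ℕ → Finset ℕ) : Pt.{u} → Set Pt.{u}
  | Pt.w j => Pt.a '' (I j : Set ℕ)
  | _ => ∅

/-- the sets `J'` on the points `q j` -/
def jq (I : ℕ → Finset ℕ) : Pt.{u} → Set Pt.{u}
  | Pt.q j => Pt.f 0 '' (I j : Set ℕ)
  | _ => ∅

lemma jw_w (I : ℕ → Finset ℕ) (j : ℕ) : jw.{u} I (Pt.w j) = Pt.a '' (I j : Set ℕ) := rfl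

lemma jq_q (I : ℕ → Finset ℕ) (j : ℕ) : jq.{u} I (Pt.q j) = Pt.f 0 '' (I j : Set ℕ) := rfl

lemma inj_a : Function.Injective Pt.a.{u} := fun x y h => by cases h; rfl
lemma inj_f : Function.Injective (Pt.f.{u} 0) := fun x y h => by cases h; rfl
lemma inj_w : Function.Injective Pt.w.{u} := fun x y h => by cases h; rfl
lemma inj_q : Function.Injective Pt.q.{u} := fun x y h => by cases h; rfl

lemma encard_jw (I : ℕ → Finset ℕ) (j : ℕ) : (jw.{u} I (Pt.w j)).encard = ((I j).card : ℕ∞) := by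
  rw [jw_w, inj_a.encard_image, Set.encard_coe_eq_coe_finsetCard]

lemma encard_jq (I : ℕ → Finset ℕ) (j : ℕ) : (jq.{u} I (Pt.q j)).encard = ((I j).card : ℕ∞) := by
  rw [jq_q, inj_f.encard_image, Set.encard_coe_eq_coe_finsetCard]

lemma encard_lt (a : ℕ) : ({j : ℕ | j < a} : Set ℕ).encard = (a : ℕ∞) := by
  have : ({j : ℕ | j < a} : Set ℕ) = (Finset.range a : Set ℕ) := by
    ext j; simp
  rw [this, Set.encard_coe_eq_coe_finsetCard, Finset.card_range]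

/-- row CON -/
theorem con (h1 : CO1Stmt.{u}) (h2 : CO2Stmt.{u}) : CONStmt.{u} := by
  intro s a k k' b N N' I I' hs ha hI hIc hI0 hk hI' hIc' hI0' hk' hb
  have dPA : Disjoint (Pt.w.{u} '' {j : ℕ | j < a}) (sA.{u} N) := by
    rw [Set.disjoint_left]; rintro _ ⟨n, -, rfl⟩; simp
  have dPB : Disjoint (Pt.w.{u} '' {j : ℕ | j < a}) (sF.{u} 0 N') := by
    rw [Set.disjoint_left]; rintro _ ⟨n, -, rfl⟩; simp
  have dQA : Disjoint (Pt.q.{u} '' {j : ℕ | j < a}) (sA.{u} N) := by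
    rw [Set.disjoint_left]; rintro _ ⟨n, -, rfl⟩; simp
  have dQB : Disjoint (Pt.q.{u} '' {j : ℕ | j < a}) (sF.{u} 0 N') := by
    rw [Set.disjoint_left]; rintro _ ⟨n, -, rfl⟩; simp
  have dAB : Disjoint (sA.{u} N) (sF.{u} 0 N') := by
    rw [Set.disjoint_left]; rintro _ ⟨n, -, rfl⟩; simp
  have dPQ : Disjoint (Pt.w.{u} '' {j : ℕ | j < a}) (Pt.q.{u} '' {j : ℕ | j < a}) := by
    rw [Set.disjoint_left]; rintro _ ⟨n, -, rfl⟩ ⟨m, -, h⟩; cases h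
  have eP : (Pt.w.{u} '' {j : ℕ | j < a}).encard = (a : ℕ∞) := by
    rw [inj_w.encard_image, encard_lt]
  have eQ : (Pt.q.{u} '' {j : ℕ | j < a}).encard = (a : ℕ∞) := by
    rw [inj_q.encard_image, encard_lt]
  have jA : ∀ p ∈ Pt.w.{u} '' {j : ℕ | j < a}, jw.{u} I p ⊆ sA.{u} N := by
    rintro _ ⟨j, hj, rfl⟩
    rw [jw_w]
    exact Set.image_mono fun t ht => hI j hj t ht
  have jB : ∀ p ∈ Pt.q.{u} '' {j : ℕ | j < a}, jq.{u} I' p ⊆ sF.{u} 0 N' := by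
    rintro _ ⟨j, hj, rfl⟩
    rw [jq_q]
    exact Set.image_mono fun t ht => hI' j hj t ht
  obtain ⟨al1, he1⟩ := h1 Pt.{u} (Pt.w.{u} '' {j : ℕ | j < a}) (sA.{u} N) (sF.{u} 0 N')
    (Pt.w.{u} '' {j : ℕ | j < a} ∪ (sA.{u} N ∪ sF.{u} 0 N')) (jw.{u} I) (Pt.w 0) s a hs dPA dPB dAB
    rfl eP ⟨0, ha, rfl⟩
    (by
      intro p hp
      refine ⟨jA p hp, ?_⟩
      obtain ⟨j, hj, rfl⟩ := hp
      rw [encard_jw]
      exact_mod_cast hIc j hj)
    (by rw [encard_jw]; exact_mod_cast hI0)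
  obtain ⟨al2, he2⟩ := h1 Pt.{u} (Pt.q.{u} '' {j : ℕ | j < a}) (sF.{u} 0 N') (sA.{u} N)
    (Pt.q.{u} '' {j : ℕ | j < a} ∪ (sF.{u} 0 N' ∪ sA.{u} N)) (jq.{u} I') (Pt.q 0) s a hs dQB dQA
    dAB.symm rfl eQ ⟨0, ha, rfl⟩
    (by
      intro p hp
      refine ⟨jB p hp, ?_⟩
      obtain ⟨j, hj, rfl⟩ := hp
      rw [encard_jq]
      exact_mod_cast hIc' j hj)
    (by rw [encard_jq]; exact_mod_cast hI0')
  have hsum := h2 Pt.{u} (Pt.w.{u} '' {j : ℕ | j < a}) (Pt.q.{u} '' {j : ℕ | j < a}) (sA.{u} N)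
    (sF.{u} 0 N') (Pt.w.{u} '' {j : ℕ | j < a} ∪ (sA.{u} N ∪ sF.{u} 0 N'))
    (Pt.q.{u} '' {j : ℕ | j < a} ∪ (sF.{u} 0 N' ∪ sA.{u} N)) (jw.{u} I) (jq.{u} I') s a k k' b hs
    dPQ dPA dPB dQA dQB dAB rfl rfl eP eQ jA jB
    (by
      rintro _ ⟨t, ht, rfl⟩
      refine le_trans (b := ((((Finset.range a).filter (fun j => t ∈ I j)).card : ℕ) : ℕ∞)) ?_ ?_
      · exact_mod_cast hk t ht
      · have hsub : Pt.w.{u} '' (((Finset.range a).filter (fun j => t ∈ I j) : Finset ℕ) : Set ℕ) ⊆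
            {p | p ∈ Pt.w.{u} '' {j : ℕ | j < a} ∧ Pt.a t ∈ jw.{u} I p} := by
          rintro _ ⟨j, hj, rfl⟩
          have hj' := Finset.mem_filter.1 (Finset.mem_coe.1 hj)
          exact ⟨⟨j, Finset.mem_range.1 hj'.1, rfl⟩, ⟨t, hj'.2, rfl⟩⟩
        have := Set.encard_le_encard hsub
        rwa [inj_w.encard_image, Set.encard_coe_eq_coe_finsetCard] at this)
    (by
      rintro _ ⟨t, ht, rfl⟩
      refine le_trans (b := ((((Finset.range a).filter (fun j => t ∈ I' j)).card : ℕ) : ℕ∞)) ?_ ?_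
      · exact_mod_cast hk' t ht
      · have hsub : Pt.q.{u} '' (((Finset.range a).filter (fun j => t ∈ I' j) : Finset ℕ) : Set ℕ) ⊆
            {p | p ∈ Pt.q.{u} '' {j : ℕ | j < a} ∧ Pt.f 0 t ∈ jq.{u} I' p} := by
          rintro _ ⟨j, hj, rfl⟩
          have hj' := Finset.mem_filter.1 (Finset.mem_coe.1 hj)
          exact ⟨⟨j, Finset.mem_range.1 hj'.1, rfl⟩, ⟨t, hj'.2, rfl⟩⟩
        have := Set.encard_le_encard hsub
        rwa [inj_q.encard_image, Set.encard_coe_eq_coe_finsetCard] at this)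
    hb
  rw [encard_sA] at he1
  rw [encard_sF] at he2
  have hne := ne_top_of_le_ne_top (ENat.natCast_ne_top b) hsum
  refine ⟨_, ?_, Pt.{u}, _, _, _, _, al1, al2, he1, he2, (ENat.natCast_toNat hne).symm⟩
  have := ENat.natCast_toNat hne
  rw [← this] at hsum
  exact_mod_cast hsum

end Pool.Agent.SHA.H70
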